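import Pool.Agent.Helper23.GK.StG
import Pool.Agent.Helper15.AB.M_DB

/-!
# Project GK: module SSC (tail of the singular series on average)
-/

set_option autoImplicit false

namespace Pool.Agent.Helper65.GK

open Finset ArithmeticFunction
open Pool.Agent.Helper23.GK

private theorem le_tot_mul_ssc (r : ℕ) : r ≤ Nat.totient r * r.divisors.card := by
  rcases Nat.eq_zero_or_pos r with h0 | h0
  · subst h0; simp
  · calc r = ∑ d ∈ r.divisors, Nat.totient d := (Nat.sum_totient r).symm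
      _ ≤ ∑ d ∈ r.divisors, Nat.totient r := by
          refine Finset.sum_le_sum fun d hd => ?_
          exact Nat.le_of_dvd (Nat.totient_pos.2 h0)
            (Nat.totient_dvd_of_dvd (Nat.dvd_of_mem_divisors hd))
      _ = _ := by rw [Finset.sum_const, smul_eq_mul, mul_comm]

/-- the term of the singular series -/
private noncomputable def ft (q N : ℕ) : ℝ :=
  (moebius q : ℝ) ^ 2 / (Nat.totient q : ℝ) ^ 2 * (cR q N : ℝ)

private theorem ft_sum (hRam : StRam) {C0 : ℝ}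
    (hDB : ∀ n : ℕ, 1 ≤ n → (n.divisors.card : ℝ) ≤ C0 * (n : ℝ) ^ (1 / 8 : ℝ)) (Y q : ℕ)
    (hq : 1 ≤ q) :
    ∑ N ∈ (Icc 1 Y).filter (fun N => Even N), |ft q N| ≤
      Y * (C0 ^ 3 * (q : ℝ) ^ (-(13 / 8) : ℝ)) := by
  have hq0 : (0 : ℝ) < q := by exact_mod_cast hq
  have hφ : (0 : ℝ) < Nat.totient q := by exact_mod_cast Nat.totient_pos.2 hq
  set τ : ℝ := (q.divisors.card : ℝ) with hτ
  have hτ0 : 0 ≤ τ := Nat.cast_nonneg _
  have hμ : (moebius q : ℝ) ^ 2 ≤ 1 := by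
    have h1 : |moebius q| ≤ 1 := abs_moebius_le_one
    have h2 : |(moebius q : ℝ)| ≤ 1 := by exact_mod_cast h1
    rw [← sq_abs]
    exact pow_le_one₀ (abs_nonneg _) h2
  have h1 : ∑ N ∈ (Icc 1 Y).filter (fun N => Even N), |ft q N| ≤ ∑ N ∈ Icc 1 Y, |ft q N| :=
    sum_le_sum_of_subset_of_nonneg (filter_subset _ _) (fun _ _ _ => abs_nonneg _)
  have h2 : ∑ N ∈ Icc 1 Y, |ft q N| =
      (moebius q : ℝ) ^ 2 / (Nat.totient q : ℝ) ^ 2 * ∑ N ∈ Icc 1 Y, |(cR q N : ℝ)| := by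
    rw [mul_sum]
    refine sum_congr rfl fun N _ => ?_
    unfold ft
    rw [abs_mul, abs_of_nonneg (by positivity)]
  have h3 : ∑ N ∈ Icc 1 Y, |(cR q N : ℝ)| ≤ Y * τ := by
    have h4 := hRam.2.2.2.2 q Y hq
    have h5 : ((∑ N ∈ Icc 1 Y, (|cR q N| : ℤ) : ℤ) : ℝ) ≤ (((Y : ℤ) * (q.divisors.card : ℤ) : ℤ) : ℝ) := by
      exact_mod_cast h4
    push_cast at h5
    exact h5
  have h4 : (q : ℝ) ≤ Nat.totient q * τ := by
    rw [hτ]; exact_mod_cast le_tot_mul_ssc q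
  have h5 : (moebius q : ℝ) ^ 2 / (Nat.totient q : ℝ) ^ 2 ≤ τ ^ 2 / (q : ℝ) ^ 2 := by
    calc (moebius q : ℝ) ^ 2 / (Nat.totient q : ℝ) ^ 2 ≤ 1 / (Nat.totient q : ℝ) ^ 2 := by gcongr
      _ ≤ τ ^ 2 / (q : ℝ) ^ 2 := by
          rw [div_le_div_iff₀ (by positivity) (by positivity), one_mul, ← mul_pow, mul_comm τ]
          exact pow_le_pow_left₀ hq0.le h4 2
  have h6 := hDB q hq
  calc _ ≤ (moebius q : ℝ) ^ 2 / (Nat.totient q : ℝ) ^ 2 * ∑ N ∈ Icc 1 Y, |(cR q N : ℝ)| := by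
        rw [← h2]; exact h1
    _ ≤ τ ^ 2 / (q : ℝ) ^ 2 * (Y * τ) := by gcongr
    _ = Y * (τ ^ 3 / (q : ℝ) ^ 2) := by ring
    _ ≤ Y * ((C0 * (q : ℝ) ^ (1 / 8 : ℝ)) ^ 3 / (q : ℝ) ^ 2) := by gcongr
    _ = Y * (C0 ^ 3 * (q : ℝ) ^ (-(13 / 8) : ℝ)) := by
        rw [mul_pow, ← Real.rpow_natCast ((q : ℝ) ^ (1 / 8 : ℝ)) 3, ← Real.rpow_mul hq0.le,
          ← Real.rpow_natCast (q : ℝ) 2, mul_div_assoc, ← Real.rpow_sub hq0]
        norm_num

/-- Module SSC. -/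
theorem hSSC (hRam : StRam) (hSsb : StSsb) : StSsc := by
  obtain ⟨C0, hC0, hDB⟩ := Pool.Agent.Helper15.AB.hDB (1 / 8) (by norm_num)
  have hsum : Summable (fun q : ℕ => (q : ℝ) ^ (-(9 / 8) : ℝ)) := by
    rw [Real.summable_nat_rpow]; norm_num
  set Z : ℝ := ∑' q : ℕ, (q : ℝ) ^ (-(9 / 8) : ℝ) with hZ
  have hZ0 : 0 ≤ Z := tsum_nonneg fun q => by positivity
  refine ⟨C0 ^ 3 * (Z + 1), by positivity, fun Q Y hQ => ?_⟩
  have hQ0 : (0 : ℝ) < Q := by exact_mod_cast hQ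
  -- finite version
  have hfin : ∀ R : ℕ, Q ≤ R →
      ∑ N ∈ (Icc 1 Y).filter (fun N => Even N), |∑ q ∈ Icc 1 R, ft q N - SQ Q N| ≤
        C0 ^ 3 * (Z + 1) * Y / √Q := by
    intro R hR
    have h1 : ∀ N, ∑ q ∈ Icc 1 R, ft q N - SQ Q N = ∑ q ∈ Ioc Q R, ft q N := by
      intro N
      have h2 : ∑ q ∈ Icc 1 R, ft q N = ∑ q ∈ Icc 1 Q, ft q N + ∑ q ∈ Ioc Q R, ft q N := by
        rw [← sum_union]
        · congr 1
          ext a
          simp only [mem_Icc, mem_union, mem_Ioc]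
          omega
        · rw [Finset.disjoint_left]
          intro a ha hb
          rw [mem_Icc] at ha
          rw [mem_Ioc] at hb
          omega
      rw [h2]
      unfold SQ ft
      ring
    calc _ = ∑ N ∈ (Icc 1 Y).filter (fun N => Even N), |∑ q ∈ Ioc Q R, ft q N| := by
          refine sum_congr rfl fun N _ => ?_
          rw [h1]
      _ ≤ ∑ N ∈ (Icc 1 Y).filter (fun N => Even N), ∑ q ∈ Ioc Q R, |ft q N| :=
          sum_le_sum fun N _ => abs_sum_le_sum_abs _ _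
      _ = ∑ q ∈ Ioc Q R, ∑ N ∈ (Icc 1 Y).filter (fun N => Even N), |ft q N| := sum_comm
      _ ≤ ∑ q ∈ Ioc Q R, Y * (C0 ^ 3 * (q : ℝ) ^ (-(13 / 8) : ℝ)) := by
          refine sum_le_sum fun q hq => ?_
          rw [mem_Ioc] at hq
          exact ft_sum hRam hDB Y q (by omega)
      _ ≤ ∑ q ∈ Ioc Q R, Y * (C0 ^ 3 * ((1 / √Q) * (q : ℝ) ^ (-(9 / 8) : ℝ))) := by
          refine sum_le_sum fun q hq => ?_
          rw [mem_Ioc] at hq
          have hq0 : (0 : ℝ) < q := by exact_mod_cast (by omega : 0 < q)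
          have h3 : (q : ℝ) ^ (-(13 / 8) : ℝ) = (q : ℝ) ^ (-(1 / 2) : ℝ) * (q : ℝ) ^ (-(9 / 8) : ℝ) := by
            rw [← Real.rpow_add hq0]; norm_num
          have h4 : (q : ℝ) ^ (-(1 / 2) : ℝ) ≤ 1 / √Q := by
            rw [Real.rpow_neg hq0.le, ← Real.sqrt_eq_rpow, ← one_div]
            refine one_div_le_one_div_of_le (Real.sqrt_pos.2 hQ0) (Real.sqrt_le_sqrt ?_)
            exact_mod_cast hq.1.le
          rw [h3]
          gcongr
      _ = C0 ^ 3 * Y / √Q * ∑ q ∈ Ioc Q R, (q : ℝ) ^ (-(9 / 8) : ℝ) := by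
          rw [mul_sum]
          refine sum_congr rfl fun q _ => ?_
          ring
      _ ≤ C0 ^ 3 * Y / √Q * (Z + 1) := by
          gcongr
          have h5 := hsum.sum_le_tsum (Ioc Q R) (fun q _ => by positivity)
          linarith
      _ = C0 ^ 3 * (Z + 1) * Y / √Q := by ring
  -- limit
  have hlim : Filter.Tendsto (fun R : ℕ =>
      ∑ N ∈ (Icc 1 Y).filter (fun N => Even N), |∑ q ∈ Icc 1 R, ft q N - SQ Q N|) Filter.atTop
      (nhds (∑ N ∈ (Icc 1 Y).filter (fun N => Even N), |SS N - SQ Q N|)) := by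
    refine tendsto_finsetSum _ fun N hN => ?_
    rw [mem_filter, mem_Icc] at hN
    have h1 := (hSsb N hN.1.1 hN.2).tendsto_sum_nat
    have h2 : Filter.Tendsto (fun R : ℕ => ∑ q ∈ Icc 1 R, ft q N) Filter.atTop (nhds (SS N)) := by
      have h3 := (Filter.tendsto_add_atTop_iff_nat 1).2 h1
      refine h3.congr fun R => ?_
      have h4 : (moebius 0 : ℝ) ^ 2 / (Nat.totient 0 : ℝ) ^ 2 * (cR 0 N : ℝ) = 0 := by simp
      rw [Finset.range_eq_Ico, Finset.sum_eq_sum_Ico_succ_bot (by omega), h4, zero_add]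
      have h5 : Ico (0 + 1) (R + 1) = Icc 1 R := by
        ext a
        simp only [mem_Ico, mem_Icc]
        omega
      rw [h5]
      rfl
    exact (h2.sub_const _).abs
  refine le_of_tendsto hlim ?_
  filter_upwards [Filter.eventually_ge_atTop Q] with R hR
  exact hfin R hR

end Pool.Agent.Helper65.GK
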